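import Mathlib

/-!
# Complements and rational commutative characteristic series (MP_2e66a2)

There is a language over two letters whose characteristic series in commutative variables is
rational, while that of its complement is not.
-/

set_option autoImplicit false

namespace Pool.Agent.Results.MP_2e66a2_lc.ComplementNotRational

open MvPowerSeries Finset

variable {σ : Type}

/-- The star `∑_k f ^ k` of a series `f` with zero constant term: the coefficient at `v` is the sum
of the coefficients of the `f ^ k` with `k ≤ |v|` (those of the other powers vanish). -/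
noncomputable def star (f : MvPowerSeries σ ℕ) : MvPowerSeries σ ℕ :=
  fun v => ∑ k ∈ range (v.degree + 1), coeff v (f ^ k)

/-- Rational series in commutative variables with coefficients in `ℕ`. -/
inductive Rat : MvPowerSeries σ ℕ → Prop
  | fin (f : MvPowerSeries σ ℕ) (h : {v | coeff v f ≠ 0}.Finite) : Rat f
  | add {f g : MvPowerSeries σ ℕ} : Rat f → Rat g → Rat (f + g)
  | mul {f g : MvPowerSeries σ ℕ} : Rat f → Rat g → Rat (f * g)
  | star {f : MvPowerSeries σ ℕ} : constantCoeff f = 0 → Rat f → Rat (star f)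

/-- The Parikh vector of a word. -/
noncomputable def parikh (x : List σ) : σ →₀ ℕ := (x.map fun a => Finsupp.single a 1).sum

/-- The characteristic series of a language in commutative variables. -/
noncomputable def chi (L : Set (List σ)) : MvPowerSeries σ ℕ :=
  fun v => Set.ncard {x | x ∈ L ∧ parikh x = v}

/-! ### The star -/

theorem coeff_star (f : MvPowerSeries σ ℕ) (v : σ →₀ ℕ) :
    coeff v (star f) = ∑ k ∈ range (v.degree + 1), coeff v (f ^ k) := rfl

theorem coeff_pow_zero {f : MvPowerSeries σ ℕ} (hf : constantCoeff f = 0) {v : σ →₀ ℕ} {n : ℕ}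
    (h : v.degree < n) : coeff v (f ^ n) = 0 :=
  coeff_eq_zero_of_constantCoeff_nilpotent (m := 1) (by rw [hf]; simp) (by omega)

theorem star_eq {f : MvPowerSeries σ ℕ} (hf : constantCoeff f = 0) :
    star f = 1 + f * star f := by
  classical
  ext v
  have key : ∀ p ∈ antidiagonal v, coeff p.1 f * coeff p.2 (star f) =
      coeff p.1 f * ∑ k ∈ range v.degree, coeff p.2 (f ^ k) := by
    intro p hp
    have hv : p.1 + p.2 = v := mem_antidiagonal.1 hp
    by_cases h0 : p.1 = 0
    · rw [h0, coeff_zero_eq_constantCoeff_apply, hf]; simp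
    · congr 1
      rw [coeff_star]
      have hd : p.1.degree + p.2.degree = v.degree := by rw [← hv, map_add]
      have hd1 : p.1.degree ≠ 0 := by
        intro h
        exact h0 ((Finsupp.degree_eq_zero_iff _).1 h)
      refine sum_subset (fun k hk => mem_range.2 (by have := mem_range.1 hk; omega)) ?_
      intro k hk hk2
      exact coeff_pow_zero hf (by
        have := mem_range.1 hk
        rw [mem_range] at hk2
        omega)
  rw [map_add, coeff_mul, sum_congr rfl key, coeff_star, sum_range_succ', pow_zero, add_comm]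
  congr 1
  have : ∀ k, coeff v (f ^ (k + 1)) = ∑ p ∈ antidiagonal v, coeff p.1 f * coeff p.2 (f ^ k) := by
    intro k
    rw [pow_succ', coeff_mul]
  simp_rw [this, mul_sum]
  rw [sum_comm]

/-- the series over the integers -/
noncomputable abbrev toZ : MvPowerSeries σ ℕ →+* MvPowerSeries σ ℤ := map (Nat.castRingHom ℤ)

theorem toZ_inj : Function.Injective (toZ : MvPowerSeries σ ℕ → MvPowerSeries σ ℤ) := by
  intro f g h
  ext v
  have h1 := congrArg (coeff v) h
  simp only [coeff_map, Nat.coe_castRingHom, Nat.cast_inj] at h1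
  exact h1

theorem star_inv {f : MvPowerSeries σ ℕ} (hf : constantCoeff f = 0) :
    (1 - toZ f) * toZ (star f) = 1 := by
  have h := congrArg toZ (star_eq hf)
  rw [map_add, map_mul, map_one] at h
  linear_combination h

/-! ### Supports of rational series are semilinear -/

/-- the support -/
def sp (f : MvPowerSeries σ ℕ) : Set (σ →₀ ℕ) := {v | coeff v f ≠ 0}

theorem sp_add (f g : MvPowerSeries σ ℕ) : sp (f + g) = sp f ∪ sp g := by
  ext v
  change coeff v (f + g) ≠ 0 ↔ coeff v f ≠ 0 ∨ coeff v g ≠ 0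
  rw [map_add]
  omega

open Pointwise in
theorem sp_mul (f g : MvPowerSeries σ ℕ) : sp (f * g) = sp f + sp g := by
  classical
  ext v
  constructor
  · intro h
    have h1 : coeff v (f * g) ≠ 0 := h
    rw [coeff_mul] at h1
    obtain ⟨p, hp, h2⟩ := exists_ne_zero_of_sum_ne_zero h1
    exact Set.mem_add.2 ⟨p.1, left_ne_zero_of_mul h2, p.2, right_ne_zero_of_mul h2,
      mem_antidiagonal.1 hp⟩
  · intro h
    obtain ⟨x, hx, y, hy, rfl⟩ := Set.mem_add.1 h
    change coeff (x + y) (f * g) ≠ 0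
    rw [coeff_mul]
    have h1 : coeff x f * coeff y g ≤ ∑ p ∈ antidiagonal (x + y), coeff p.1 f * coeff p.2 g :=
      single_le_sum (f := fun p : (σ →₀ ℕ) × (σ →₀ ℕ) => coeff p.1 f * coeff p.2 g)
        (fun _ _ => Nat.zero_le _) (mem_antidiagonal.2 rfl : (x, y) ∈ antidiagonal (x + y))
    have h2 : 0 < coeff x f * coeff y g := Nat.mul_pos (Nat.pos_of_ne_zero hx)
      (Nat.pos_of_ne_zero hy)
    omega

open Pointwise in
theorem sp_star {f : MvPowerSeries σ ℕ} (hf : constantCoeff f = 0) :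
    sp (star f) = (AddSubmonoid.closure (sp f) : Set (σ →₀ ℕ)) := by
  have hpow : ∀ k, sp (f ^ k) ⊆ (AddSubmonoid.closure (sp f) : Set (σ →₀ ℕ)) := by
    intro k
    induction k with
    | zero =>
      intro v hv
      have hv : coeff v (1 : MvPowerSeries σ ℕ) ≠ 0 := by simpa [sp] using hv
      classical
      rw [coeff_one] at hv
      have : v = 0 := by
        by_contra h
        rw [if_neg h] at hv
        exact hv rfl
      rw [this]
      exact AddSubmonoid.zero_mem _
    | succ k ih =>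
      rw [pow_succ', sp_mul]
      intro v hv
      obtain ⟨x, hx, y, hy, rfl⟩ := Set.mem_add.1 hv
      exact AddSubmonoid.add_mem _ (AddSubmonoid.subset_closure hx) (ih hy)
  apply Set.Subset.antisymm
  · intro v hv
    have hv : coeff v (star f) ≠ 0 := hv
    rw [coeff_star] at hv
    obtain ⟨k, -, h⟩ := exists_ne_zero_of_sum_ne_zero hv
    exact hpow k h
  · intro v hv0
    have hv : v ∈ AddSubmonoid.closure (sp f) := hv0
    clear hv0
    induction hv using AddSubmonoid.closure_induction_left with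
    | zero =>
      change coeff 0 (star f) ≠ 0
      rw [star_eq hf, map_add]
      simp [hf]
    | add_left x hx y _ ih =>
      change coeff (x + y) (star f) ≠ 0
      rw [star_eq hf, map_add]
      have h1 : x + y ∈ sp (f * star f) := by
        rw [sp_mul]
        exact Set.add_mem_add hx ih
      have h1 : coeff (x + y) (f * star f) ≠ 0 := h1
      omega

theorem Rat.semilinear {f : MvPowerSeries σ ℕ} (h : Rat f) : IsSemilinearSet (sp f) := by
  induction h with
  | fin f h => exact IsSemilinearSet.of_finite h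
  | add _ _ h1 h2 => rw [sp_add]; exact h1.union h2
  | mul _ _ h1 h2 => rw [sp_mul]; exact h1.add h2
  | star hf _ h => rw [sp_star hf]; exact h.closure

/-! ### Words -/

theorem prod_X (ι : Type) (t : Finset ι) (p : ι → σ) :
    ∏ i ∈ t, (X (p i) : MvPowerSeries σ ℕ) = monomial (∑ i ∈ t, Finsupp.single (p i) 1) 1 := by
  classical
  induction t using Finset.induction_on with
  | empty => simp
  | insert a t ha ih =>
    rw [prod_insert ha, sum_insert ha, ih, X, monomial_mul_monomial, one_mul]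

theorem coeff_pow_sum [Fintype σ] (v : σ →₀ ℕ) (n : ℕ) :
    coeff v ((∑ a, X a : MvPowerSeries σ ℕ) ^ n) =
      Set.ncard {f : Fin n → σ | ∑ i, Finsupp.single (f i) 1 = v} := by
  classical
  rw [Fintype.sum_pow, map_sum]
  simp_rw [prod_X, coeff_monomial]
  rw [sum_boole]
  simp only [Nat.cast_id]
  rw [← Set.ncard_coe_finset]
  congr 1
  ext f
  simp [eq_comm]

theorem parikh_ofFn {n : ℕ} (f : Fin n → σ) :
    parikh (List.ofFn f) = ∑ i, Finsupp.single (f i) 1 := by
  unfold parikh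
  rw [List.map_ofFn, List.sum_ofFn]
  rfl

theorem degree_parikh (x : List σ) : (parikh x).degree = x.length := by
  induction x with
  | nil => simp [parikh]
  | cons a x ih =>
    have : parikh (a :: x) = Finsupp.single a 1 + parikh x := by simp [parikh]
    rw [this, map_add, ih, List.length_cons, Finsupp.degree_single]
    omega

theorem words_eq (v : σ →₀ ℕ) : {x : List σ | parikh x = v} =
    List.ofFn '' {f : Fin v.degree → σ | ∑ i, Finsupp.single (f i) 1 = v} := by
  ext x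
  constructor
  · intro hx
    have hx : parikh x = v := hx
    have hl : x.length = v.degree := by rw [← hx, degree_parikh]
    have e : List.ofFn (fun i : Fin v.degree => x.get (Fin.cast hl.symm i)) = x := by
      apply List.ext_get (by simp [hl])
      intro n h1 h2
      simp
    refine ⟨fun i => x.get (Fin.cast hl.symm i), ?_, e⟩
    change ∑ i : Fin v.degree, Finsupp.single (x.get (Fin.cast hl.symm i)) 1 = v
    rw [← parikh_ofFn, e]
    exact hx
  · rintro ⟨f, hf, rfl⟩
    change parikh _ = v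
    rw [parikh_ofFn]
    exact hf

theorem chi_univ [Fintype σ] : chi (Set.univ : Set (List σ)) = star (∑ a, X a) := by
  ext v
  have h1 : coeff v (chi (Set.univ : Set (List σ))) = Set.ncard {x : List σ | parikh x = v} := by
    change Set.ncard {x : List σ | x ∈ Set.univ ∧ parikh x = v} = _
    simp
  rw [h1, words_eq, Set.ncard_image_of_injective _ List.ofFn_injective, coeff_star]
  rw [sum_eq_single v.degree]
  · rw [coeff_pow_sum]
  · intro k _ hk
    rw [coeff_pow_sum, Set.ncard_eq_zero (Set.toFinite _)]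
    rw [Set.eq_empty_iff_forall_notMem]
    intro f h
    have h : ∑ i, Finsupp.single (f i) 1 = v := h
    apply hk
    rw [← h, ← parikh_ofFn, degree_parikh, List.length_ofFn]
  · intro h
    exact (h (mem_range.2 (by omega))).elim

theorem words_finite [Finite σ] (v : σ →₀ ℕ) : {x : List σ | parikh x = v}.Finite := by
  rw [words_eq]
  exact Set.Finite.image _ (Set.toFinite _)

theorem chi_compl [Finite σ] (L : Set (List σ)) : chi L + chi Lᶜ = chi Set.univ := by
  ext v
  change Set.ncard {x | x ∈ L ∧ parikh x = v} + Set.ncard {x | x ∈ Lᶜ ∧ parikh x = v} =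
    Set.ncard {x | x ∈ Set.univ ∧ parikh x = v}
  have hf := words_finite v
  have hd : Disjoint {x | x ∈ L ∧ parikh x = v} {x | x ∈ Lᶜ ∧ parikh x = v} := by
    rw [Set.disjoint_left]
    rintro x ⟨h1, -⟩ ⟨h2, -⟩
    exact h2 h1
  rw [← Set.ncard_union_eq hd (hf.subset fun x hx => hx.2) (hf.subset fun x hx => hx.2)]
  congr 1
  ext x
  constructor
  · rintro (h | h)
    · exact ⟨trivial, h.2⟩
    · exact ⟨trivial, h.2⟩
  · rintro ⟨-, h⟩
    by_cases hx : x ∈ L
    · exact Or.inl ⟨hx, h⟩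
    · exact Or.inr ⟨hx, h⟩

theorem exists_language (S : MvPowerSeries σ ℕ)
    (h : ∀ v, coeff v S ≤ coeff v (chi (Set.univ : Set (List σ)))) :
    ∃ L : Set (List σ), chi L = S := by
  have h1 : ∀ v : σ →₀ ℕ, ∃ t : Set (List σ), t ⊆ {x | parikh x = v} ∧ t.ncard = coeff v S := by
    intro v
    have h2 := h v
    have h3 : coeff v (chi (Set.univ : Set (List σ))) = Set.ncard {x : List σ | parikh x = v} := by
      change Set.ncard {x : List σ | x ∈ Set.univ ∧ parikh x = v} = _
      simp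
    rw [h3] at h2
    exact Set.exists_subset_card_eq h2
  choose t ht ht2 using h1
  refine ⟨{x | x ∈ t (parikh x)}, ?_⟩
  ext v
  change Set.ncard {x | x ∈ t (parikh x) ∧ parikh x = v} = _
  rw [← ht2]
  congr 1
  ext x
  constructor
  · rintro ⟨h1, rfl⟩
    exact h1
  · intro h1
    have h2 : parikh x = v := ht v h1
    refine ⟨?_, h2⟩
    rw [h2]
    exact h1

/-! ### Series supported on a rank two lattice -/

section

/-- exponent vectors `(3 i + 2 j, 3 i + 4 j)` -/
noncomputable def en : ℕ × ℕ →+ (Fin 2 →₀ ℕ) where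
  toFun p := Finsupp.single 0 (3 * p.1 + 2 * p.2) + Finsupp.single 1 (3 * p.1 + 4 * p.2)
  map_zero' := by simp
  map_add' p q := by
    ext i
    fin_cases i <;> simp <;> ring

theorem en_zero_apply (p : ℕ × ℕ) : en p 0 = 3 * p.1 + 2 * p.2 := by simp [en]

theorem en_one_apply (p : ℕ × ℕ) : en p 1 = 3 * p.1 + 4 * p.2 := by simp [en]

theorem en_inj : Function.Injective en := by
  intro p q h
  have h0 := DFunLike.congr_fun h 0
  have h1 := DFunLike.congr_fun h 1
  rw [en_zero_apply, en_zero_apply] at h0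
  rw [en_one_apply, en_one_apply] at h1
  ext <;> omega

/-- the series with coefficients `f p` at `en p` -/
noncomputable def Ph {R : Type} [Semiring R] (f : ℕ × ℕ → R) : MvPowerSeries (Fin 2) R :=
  Function.extend en f (0 : (Fin 2 →₀ ℕ) → R)

theorem coeff_Ph {R : Type} [Semiring R] (f : ℕ × ℕ → R) (p : ℕ × ℕ) :
    coeff (en p) (Ph f) = f p := en_inj.extend_apply f (0 : (Fin 2 →₀ ℕ) → R) p

theorem coeff_Ph' {R : Type} [Semiring R] (f : ℕ × ℕ → R) (v : Fin 2 →₀ ℕ)
    (h : ¬ ∃ p, en p = v) : coeff v (Ph f) = 0 :=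
  Function.extend_apply' f (0 : (Fin 2 →₀ ℕ) → R) v h

theorem Ph_add {R : Type} [Semiring R] (f g : ℕ × ℕ → R) : Ph (f + g) = Ph f + Ph g := by
  ext v
  rw [map_add]
  by_cases h : ∃ p, en p = v
  · obtain ⟨p, rfl⟩ := h
    rw [coeff_Ph, coeff_Ph, coeff_Ph]; rfl
  · rw [coeff_Ph' _ _ h, coeff_Ph' _ _ h, coeff_Ph' _ _ h, add_zero]

theorem Ph_smul (c : ℤ) (f : ℕ × ℕ → ℤ) : Ph (fun p => c * f p) = C c * Ph f := by
  ext v
  rw [coeff_C_mul]
  by_cases h : ∃ p, en p = v
  · obtain ⟨p, rfl⟩ := h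
    rw [coeff_Ph, coeff_Ph]
  · rw [coeff_Ph' _ _ h, coeff_Ph' _ _ h, mul_zero]

theorem Ph_shift (q : ℕ × ℕ) (f : ℕ × ℕ → ℤ) :
    monomial (en q) 1 * Ph f = Ph fun p => if q ≤ p then f (p - q) else 0 := by
  ext v
  rw [coeff_monomial_mul]
  by_cases h : ∃ p, en p = v
  · obtain ⟨p, rfl⟩ := h
    rw [coeff_Ph]
    by_cases hq : q ≤ p
    · rw [if_pos hq]
      obtain ⟨r, rfl⟩ := exists_add_of_le hq
      have e1 : en (q + r) - en q = en r := by rw [map_add, add_tsub_cancel_left]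
      rw [if_pos (by rw [map_add]; exact le_self_add), e1, coeff_Ph, one_mul,
        add_tsub_cancel_left]
    · rw [if_neg hq]
      by_cases hv : en q ≤ en p
      · rw [if_pos hv, one_mul]
        apply coeff_Ph'
        rintro ⟨r, hr⟩
        apply hq
        have : en (q + r) = en p := by rw [map_add, hr, add_tsub_cancel_of_le hv]
        rw [← en_inj this]
        exact le_self_add
      · rw [if_neg hv]
  · rw [coeff_Ph' _ _ h]
    by_cases hv : en q ≤ v
    · rw [if_pos hv, one_mul]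
      apply coeff_Ph'
      rintro ⟨r, hr⟩
      apply h
      exact ⟨q + r, by rw [map_add, hr, add_tsub_cancel_of_le hv]⟩
    · rw [if_neg hv]

/-- the first monomial `a³ b³` -/
noncomputable def U (R : Type) [CommSemiring R] : MvPowerSeries (Fin 2) R := X 0 ^ 3 * X 1 ^ 3

/-- the second monomial `a² b⁴` -/
noncomputable def W (R : Type) [CommSemiring R] : MvPowerSeries (Fin 2) R := X 0 ^ 2 * X 1 ^ 4

theorem U_eq : U ℤ = monomial (en (1, 0)) 1 := by
  unfold U
  rw [X_pow_eq, X_pow_eq, monomial_mul_monomial, one_mul]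
  rfl

theorem W_eq : W ℤ = monomial (en (0, 1)) 1 := by
  unfold W
  rw [X_pow_eq, X_pow_eq, monomial_mul_monomial, one_mul]
  rfl

theorem U_mul (f : ℕ × ℕ → ℤ) : U ℤ * Ph f = Ph fun p => if p.1 = 0 then 0 else f (p.1 - 1, p.2) := by
  rw [U_eq, Ph_shift]
  congr 1
  funext p
  obtain ⟨i, j⟩ := p
  by_cases h : i = 0
  · rw [if_neg (by simp [Prod.le_def]; omega), if_pos h]
  · rw [if_pos (by simp [Prod.le_def]; omega), if_neg h]
    rfl

theorem W_mul (f : ℕ × ℕ → ℤ) : W ℤ * Ph f = Ph fun p => if p.2 = 0 then 0 else f (p.1, p.2 - 1) := by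
  rw [W_eq, Ph_shift]
  congr 1
  funext p
  obtain ⟨i, j⟩ := p
  by_cases h : j = 0
  · rw [if_neg (by simp [Prod.le_def]; omega), if_pos h]
  · rw [if_pos (by simp [Prod.le_def]; omega), if_neg h]
    rfl

/-- solving `(1 - c u) F = G` -/
theorem U_solve (c : ℤ) (g : ℕ → ℤ) :
    (1 - C c * U ℤ) * Ph (fun p => c ^ p.1 * g p.2) = Ph fun p => if p.1 = 0 then g p.2 else 0 := by
  have h : (1 - C c * U ℤ) * Ph (fun p => c ^ p.1 * g p.2) =
      Ph (fun p => c ^ p.1 * g p.2) - C c * (U ℤ * Ph (fun p => c ^ p.1 * g p.2)) := by ring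
  rw [h, U_mul, ← Ph_smul, sub_eq_iff_eq_add, ← Ph_add]
  congr 1
  funext p
  obtain ⟨i, j⟩ := p
  simp only [Pi.add_apply]
  cases i with
  | zero => simp
  | succ i => simp [pow_succ]; ring

theorem W_solve (g : ℕ → ℤ) :
    (1 - W ℤ) * Ph (fun p => if p.1 = 0 then g p.2 else 0) =
      Ph fun p => if p.1 = 0 then (if p.2 = 0 then g 0 else g p.2 - g (p.2 - 1)) else 0 := by
  rw [sub_mul, one_mul, W_mul, sub_eq_iff_eq_add, ← Ph_add]
  congr 1
  funext p
  obtain ⟨i, j⟩ := p
  simp only [Pi.add_apply]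
  cases i with
  | zero =>
    cases j with
    | zero => simp
    | succ j => simp
  | succ i => simp

theorem Ph_one : Ph (fun p => if p.1 = 0 then (if p.2 = 0 then (1 : ℤ) else 0) else 0) = 1 := by
  classical
  ext v
  rw [coeff_one]
  by_cases h : ∃ p, en p = v
  · obtain ⟨⟨i, j⟩, rfl⟩ := h
    rw [coeff_Ph]
    by_cases h0 : en (i, j) = 0
    · rw [if_pos h0]
      have h1 : en (i, j) = en 0 := by rw [h0, map_zero]
      have h2 := en_inj h1
      simp only [Prod.mk_eq_zero] at h2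
      simp [h2.1, h2.2]
    · rw [if_neg h0]
      have h2 : ¬ (i = 0 ∧ j = 0) := by
        rintro ⟨rfl, rfl⟩
        exact h0 (map_zero en)
      simp only
      split_ifs <;> simp_all
  · rw [coeff_Ph' _ _ h, if_neg]
    rintro rfl
    exact h ⟨0, map_zero en⟩

/-! ### Algebra over the integers -/

/-- the values `(2 ^ i - j) ^ 2` -/
def fT (p : ℕ × ℕ) : ℤ := (2 ^ p.1 - p.2) ^ 2

theorem Ph_fT {x4 x2 x1 y1 : MvPowerSeries (Fin 2) ℤ} (h4 : (1 - 4 * U ℤ) * x4 = 1)
    (h2 : (1 - 2 * U ℤ) * x2 = 1) (h1 : (1 - U ℤ) * x1 = 1) (hy : (1 - W ℤ) * y1 = 1) :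
    Ph fT = x4 * y1 - 2 * x2 * W ℤ * y1 ^ 2 + x1 * (W ℤ + W ℤ ^ 2) * y1 ^ 3 := by
  -- the three summands
  have c4 : (C (4 : ℤ) : MvPowerSeries (Fin 2) ℤ) = 4 := map_ofNat C 4
  have c2 : (C (2 : ℤ) : MvPowerSeries (Fin 2) ℤ) = 2 := map_ofNat C 2
  have c1 : (C (1 : ℤ) : MvPowerSeries (Fin 2) ℤ) = 1 := map_one C
  have e : Ph fT = Ph (fun p => 4 ^ p.1 * 1) + (C (-2) * Ph (fun p => 2 ^ p.1 * (p.2 : ℤ)) +
      Ph (fun p => 1 ^ p.1 * (p.2 : ℤ) ^ 2)) := by
    rw [← Ph_smul, ← Ph_add, ← Ph_add]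
    congr 1
    funext p
    simp only [fT, Pi.add_apply]
    have : (4 : ℤ) ^ p.1 = (2 ^ p.1) ^ 2 := by rw [← pow_mul, mul_comm, pow_mul]; norm_num
    rw [this]
    ring
  -- `E0`
  set E0 : MvPowerSeries (Fin 2) ℤ := Ph fun p => if p.1 = 0 then 1 else 0 with hE0
  set E1 : MvPowerSeries (Fin 2) ℤ := Ph fun p => if p.1 = 0 then (p.2 : ℤ) else 0 with hE1
  set E2 : MvPowerSeries (Fin 2) ℤ := Ph fun p => if p.1 = 0 then (p.2 : ℤ) ^ 2 else 0 with hE2
  have a0 : (1 - W ℤ) * E0 = 1 := by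
    have h := W_solve (fun _ => 1)
    simp only [sub_self] at h
    rw [Ph_one] at h
    exact h
  have a1 : (1 - W ℤ) * E1 = W ℤ * E0 := by
    have h := W_solve (fun j => (j : ℤ))
    rw [hE1, h, hE0, W_mul]
    congr 1
    funext p
    obtain ⟨i, j⟩ := p
    cases i with
    | zero =>
      cases j with
      | zero => simp
      | succ j => simp
    | succ i => simp
  have a2 : (1 - W ℤ) * E2 = C 2 * E1 - W ℤ * E0 := by
    have h := W_solve (fun j => (j : ℤ) ^ 2)
    rw [hE2, h, hE0, W_mul, hE1, eq_sub_iff_add_eq, ← Ph_smul, ← Ph_add]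
    congr 1
    funext p
    obtain ⟨i, j⟩ := p
    simp only [Pi.add_apply]
    cases i with
    | zero =>
      cases j with
      | zero => simp
      | succ j => simp; ring
    | succ i => simp
  have b1 := U_solve 4 (fun _ => 1)
  have b2 := U_solve 2 (fun j => (j : ℤ))
  have b3 := U_solve 1 (fun j => (j : ℤ) ^ 2)
  rw [c4] at b1
  rw [c2] at b2
  rw [c1, one_mul] at b3
  rw [c2] at a2
  have cm2 : (C (-2 : ℤ) : MvPowerSeries (Fin 2) ℤ) = -2 := by rw [map_neg, c2]
  rw [e, cm2]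
  set F1 : MvPowerSeries (Fin 2) ℤ := Ph (fun p => 4 ^ p.1 * 1)
  set F2 : MvPowerSeries (Fin 2) ℤ := Ph (fun p => 2 ^ p.1 * (p.2 : ℤ))
  set F3 : MvPowerSeries (Fin 2) ℤ := Ph (fun p => 1 ^ p.1 * (p.2 : ℤ) ^ 2)
  have d0 : E0 = y1 := by linear_combination y1 * a0 - E0 * hy
  have d1 : E1 = W ℤ * y1 ^ 2 := by
    rw [d0] at a1
    linear_combination y1 * a1 - E1 * hy
  have d2 : E2 = y1 * (2 * (W ℤ * y1 ^ 2) - W ℤ * y1) := by
    rw [d0, d1] at a2
    linear_combination y1 * a2 - E2 * hy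
  have f1 : F1 = x4 * y1 := by
    have b1 : (1 - 4 * U ℤ) * F1 = E0 := b1
    rw [d0] at b1
    linear_combination x4 * b1 - F1 * h4
  have f2 : F2 = x2 * (W ℤ * y1 ^ 2) := by
    have b2 : (1 - 2 * U ℤ) * F2 = E1 := b2
    rw [d1] at b2
    linear_combination x2 * b2 - F2 * h2
  have f3 : F3 = x1 * (y1 * (2 * (W ℤ * y1 ^ 2) - W ℤ * y1)) := by
    have b3 : (1 - U ℤ) * F3 = E2 := b3
    rw [d2] at b3
    linear_combination x1 * b3 - F3 * h1
  rw [f1, f2, f3]
  linear_combination (x1 * W ℤ * y1 ^ 2) * hy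

/-- the sum of the letters -/
noncomputable def sl (R : Type) [CommSemiring R] : MvPowerSeries (Fin 2) R := X 0 + X 1

/-- `sl ^ 6 - 6 U - 6 W` -/
noncomputable def PP (R : Type) [CommSemiring R] : MvPowerSeries (Fin 2) R :=
  X 0 ^ 6 + 6 * X 0 ^ 5 * X 1 + 15 * X 0 ^ 4 * X 1 ^ 2 + 14 * (X 0 ^ 3 * X 1 ^ 3) +
    9 * (X 0 ^ 2 * X 1 ^ 4) + 6 * X 0 * X 1 ^ 5 + X 1 ^ 6

/-- `s + ... + s ^ 5` -/
noncomputable def QQ (R : Type) [CommSemiring R] : MvPowerSeries (Fin 2) R :=
  sl R + sl R ^ 2 + sl R ^ 3 + sl R ^ 4 + sl R ^ 5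

/-- the rational series -/
noncomputable def SS : MvPowerSeries (Fin 2) ℕ :=
  (2 * U ℕ * star (6 * U ℕ) * star (4 * U ℕ) * star (W ℕ) +
    (5 * U ℕ * star (6 * U ℕ) * star (U ℕ)) * (5 * W ℕ * star (6 * W ℕ) * star (W ℕ)) +
    star (U ℕ) * (W ℕ * star (6 * W ℕ) * star (W ℕ) * (1 + 3 * star (W ℕ)) +
      10 * W ℕ ^ 3 * star (6 * W ℕ) * star (W ℕ) ^ 3) +
    2 * star (2 * U ℕ) * W ℕ * star (W ℕ) ^ 2) +
  (star (6 * U ℕ) * star (6 * W ℕ) * (36 * U ℕ * W ℕ) * star (6 * U ℕ + 6 * W ℕ) +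
    star (6 * U ℕ + 6 * W ℕ) * (QQ ℕ + (1 + QQ ℕ) * PP ℕ * star (6 * U ℕ + 6 * W ℕ + PP ℕ)))

theorem n2 : toZ (2 : MvPowerSeries (Fin 2) ℕ) = 2 := map_ofNat toZ 2

theorem n3 : toZ (3 : MvPowerSeries (Fin 2) ℕ) = 3 := map_ofNat toZ 3

theorem n4 : toZ (4 : MvPowerSeries (Fin 2) ℕ) = 4 := map_ofNat toZ 4

theorem n5 : toZ (5 : MvPowerSeries (Fin 2) ℕ) = 5 := map_ofNat toZ 5

theorem n6 : toZ (6 : MvPowerSeries (Fin 2) ℕ) = 6 := map_ofNat toZ 6

theorem n10 : toZ (10 : MvPowerSeries (Fin 2) ℕ) = 10 := map_ofNat toZ 10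

theorem n36 : toZ (36 : MvPowerSeries (Fin 2) ℕ) = 36 := map_ofNat toZ 36

theorem map_PP {R S : Type} [CommSemiring R] [CommSemiring S] (f : R →+* S) :
    map f (PP R) = PP S := by
  unfold PP
  simp only [map_add, map_mul, map_pow, map_X, map_ofNat]

theorem toZ_U : toZ (U ℕ) = U ℤ := by simp [U]

theorem toZ_W : toZ (W ℕ) = W ℤ := by simp [W]

theorem toZ_sl : toZ (sl ℕ) = sl ℤ := by simp [sl]

theorem toZ_PP : toZ (PP ℕ) = PP ℤ := map_PP _

theorem toZ_QQ : toZ (QQ ℕ) = QQ ℤ := by simp [QQ, sl]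

/-- `(2 ^ i - j) ^ 2` as a natural number -/
def gT (p : ℕ × ℕ) : ℕ := (fT p).toNat

theorem toZ_Ph : toZ (Ph gT) = Ph fT := by
  ext v
  rw [coeff_map]
  by_cases h : ∃ p, en p = v
  · obtain ⟨p, rfl⟩ := h
    rw [coeff_Ph, coeff_Ph]
    have : 0 ≤ fT p := sq_nonneg _
    simp [gT, this]
  · rw [coeff_Ph' _ _ h, coeff_Ph' _ _ h, map_zero]

theorem main_eq : SS + Ph gT = star (sl ℕ) := by
  apply toZ_inj
  have hU : constantCoeff (U ℕ) = 0 := by simp [U]
  have hW : constantCoeff (W ℕ) = 0 := by simp [W]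
  have hP : constantCoeff (PP ℕ) = 0 := by simp [PP]
  have hs : constantCoeff (sl ℕ) = 0 := by simp [sl]
  have h6 : (1 - 6 * U ℤ) * toZ (star (6 * U ℕ)) = 1 := by
    have := star_inv (f := 6 * U ℕ) (by simp [hU])
    rwa [map_mul, toZ_U, n6] at this
  have h4 : (1 - 4 * U ℤ) * toZ (star (4 * U ℕ)) = 1 := by
    have := star_inv (f := 4 * U ℕ) (by simp [hU])
    rwa [map_mul, toZ_U, n4] at this
  have h2 : (1 - 2 * U ℤ) * toZ (star (2 * U ℕ)) = 1 := by
    have := star_inv (f := 2 * U ℕ) (by simp [hU])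
    rwa [map_mul, toZ_U, n2] at this
  have h1 : (1 - U ℤ) * toZ (star (U ℕ)) = 1 := by
    have := star_inv (f := U ℕ) hU
    rwa [toZ_U] at this
  have g6 : (1 - 6 * W ℤ) * toZ (star (6 * W ℕ)) = 1 := by
    have := star_inv (f := 6 * W ℕ) (by simp [hW])
    rwa [map_mul, toZ_W, n6] at this
  have g1 : (1 - W ℤ) * toZ (star (W ℕ)) = 1 := by
    have := star_inv (f := W ℕ) hW
    rwa [toZ_W] at this
  have hz : (1 - (6 * U ℤ + 6 * W ℤ)) * toZ (star (6 * U ℕ + 6 * W ℕ)) = 1 := by
    have := star_inv (f := 6 * U ℕ + 6 * W ℕ) (by simp [hU, hW])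
    rwa [map_add, map_mul, map_mul, toZ_U, toZ_W, n6] at this
  have ht : (1 - (6 * U ℤ + 6 * W ℤ + PP ℤ)) * toZ (star (6 * U ℕ + 6 * W ℕ + PP ℕ)) = 1 := by
    have := star_inv (f := 6 * U ℕ + 6 * W ℕ + PP ℕ) (by simp [hU, hW, hP])
    rwa [map_add, map_add, map_mul, map_mul, toZ_U, toZ_W, toZ_PP, n6] at this
  have hr : (1 - sl ℤ) * toZ (star (sl ℕ)) = 1 := by
    have := star_inv (f := sl ℕ) hs
    rwa [toZ_sl] at this
  have hsix : sl ℤ ^ 6 = 6 * U ℤ + 6 * W ℤ + PP ℤ := by
    unfold sl U W PP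
    ring
  rw [map_add, toZ_Ph, Ph_fT h4 h2 h1 g1]
  unfold SS
  simp only [map_add, map_mul, map_pow, map_one, n2, n3, n5, n10, n36, toZ_U, toZ_W,
    toZ_PP, toZ_QQ]
  generalize toZ (star (6 * U ℕ)) = x6 at *
  generalize toZ (star (4 * U ℕ)) = x4 at *
  generalize toZ (star (2 * U ℕ)) = x2 at *
  generalize toZ (star (U ℕ)) = x1 at *
  generalize toZ (star (6 * W ℕ)) = y6 at *
  generalize toZ (star (W ℕ)) = y1 at *
  generalize toZ (star (6 * U ℕ + 6 * W ℕ)) = z at *
  generalize toZ (star (6 * U ℕ + 6 * W ℕ + PP ℕ)) = t at *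
  generalize toZ (star (sl ℕ)) = r at *
  unfold QQ
  generalize sl ℤ = s at *
  generalize PP ℤ = P at *
  generalize U ℤ = u at *
  generalize W ℤ = w at *
  -- elementary identities
  have a1 : 2 * u * x6 * x4 = x6 - x4 := by linear_combination x6 * h4 - x4 * h6
  have a2 : 5 * u * x6 * x1 = x6 - x1 := by linear_combination x6 * h1 - x1 * h6
  have a3 : 5 * w * y6 * y1 = y6 - y1 := by linear_combination y6 * g1 - y1 * g6
  have e1 : y1 = (1 - w) ^ 2 * y1 ^ 3 := by
    linear_combination (-(y1 * ((1 - w) * y1 + 1))) * g1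
  have e2 : y1 ^ 2 = (1 - w) * y1 ^ 3 := by linear_combination (-(y1 ^ 2)) * g1
  have e3 : (w + w ^ 2) * y1 ^ 3 = (w + w ^ 2) * y1 ^ 3 * ((1 - 6 * w) * y6) := by
    linear_combination (-((w + w ^ 2) * y1 ^ 3)) * g6
  have a4 : w * y6 * y1 * (1 + 3 * y1) + 10 * w ^ 3 * y6 * y1 ^ 3 =
      y6 - y1 - (w + w ^ 2) * y1 ^ 3 := by
    linear_combination a3 - 4 * w * y6 * e1 + 3 * w * y6 * e2 + e3
  have b1 : z = x6 * y6 * (1 + 36 * u * w * z) := by
    linear_combination (x6 * y6) * hz + z * y6 * (1 - 6 * w) * h6 * (-1) + z * g6 * (-1)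
  have b2 : t = z * (1 + P * t) := by
    linear_combination t * hz * (-1) + z * ht
  have b3 : r = (1 + (s + s ^ 2 + s ^ 3 + s ^ 4 + s ^ 5)) * t := by
    linear_combination (-r) * ht + (1 + (s + s ^ 2 + s ^ 3 + s ^ 4 + s ^ 5)) * t * hr + r * t * hsix
  linear_combination y1 * a1 + (5 * w * y6 * y1) * a2 + (x6 - x1) * a3 + x1 * a4 - b1 -
    (1 + (s + s ^ 2 + s ^ 3 + s ^ 4 + s ^ 5)) * b2 - b3

/-! ### The support of `Ph gT` -/

theorem not_semilinear : ¬ IsSemilinearSet (sp (Ph gT)) := by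
  intro h
  have h1 : IsSemilinearSet {p : ℕ × ℕ | 2 ^ p.1 = p.2} := by
    have h2 := (h.preimage en).compl
    convert h2 using 1
    ext p
    have h3 : p ∈ (en ⁻¹' sp (Ph gT))ᶜ ↔ ¬ (gT p ≠ 0) := by
      change ¬ (coeff (en p) (Ph gT) ≠ 0) ↔ _
      rw [coeff_Ph]
    rw [h3]
    change 2 ^ p.1 = p.2 ↔ _
    simp only [gT, fT]
    constructor
    · intro h4
      have : ((2 : ℤ) ^ p.1 - p.2) = 0 := by rw [← h4]; push_cast; ring
      rw [this]; simp
    · intro h4
      have h5 : ((2 : ℤ) ^ p.1 - p.2) ^ 2 ≤ 0 := by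
        by_contra h6
        exact h4 (by omega)
      have h6 : ((2 : ℤ) ^ p.1 - p.2) = 0 := by nlinarith [sq_nonneg ((2 : ℤ) ^ p.1 - p.2)]
      have h7 : (2 : ℤ) ^ p.1 = p.2 := by linarith
      exact_mod_cast h7
  have h2 := h1.image (AddMonoidHom.snd ℕ ℕ)
  obtain ⟨k, p, hp, h3⟩ := Nat.isSemilinearSet_iff_ultimately_periodic.1 h2
  have hmem : ∀ x, x ∈ (AddMonoidHom.snd ℕ ℕ) '' {p : ℕ × ℕ | 2 ^ p.1 = p.2} ↔ ∃ n, 2 ^ n = x := by
    intro x
    constructor
    · rintro ⟨⟨i, j⟩, h4, rfl⟩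
      exact ⟨i, h4⟩
    · rintro ⟨n, rfl⟩
      exact ⟨(n, 2 ^ n), rfl, rfl⟩
  have h4 : k + p < 2 ^ (k + p) := Nat.lt_two_pow_self
  obtain ⟨m, hm⟩ := (hmem _).1 ((h3 (2 ^ (k + p)) (by omega)).1 ((hmem _).2 ⟨_, rfl⟩))
  have h5 : k + p < m := by
    by_contra h6
    have := Nat.pow_le_pow_right (n := 2) (by omega) (not_lt.1 h6)
    omega
  have h6 : 2 ^ (k + p + 1) ≤ 2 ^ m := Nat.pow_le_pow_right (by omega) h5
  rw [pow_succ] at h6
  omega

/-! ### Rationality of `SS` -/

theorem rat_C (n : ℕ) : Rat (C n : MvPowerSeries σ ℕ) := by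
  classical
  refine .fin _ (Set.Finite.subset (Set.finite_singleton 0) ?_)
  intro v hv
  by_contra h
  rw [Set.mem_singleton_iff] at h
  apply hv
  rw [coeff_C, if_neg h]

theorem rat_X (a : σ) : Rat (X a : MvPowerSeries σ ℕ) := by
  classical
  refine .fin _ (Set.Finite.subset (Set.finite_singleton (Finsupp.single a 1)) ?_)
  intro v hv
  by_contra h
  rw [Set.mem_singleton_iff] at h
  apply hv
  rw [coeff_X, if_neg h]

theorem rat_one : Rat (1 : MvPowerSeries σ ℕ) := by
  have := rat_C (σ := σ) 1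
  rwa [map_one] at this

theorem rat_ofNat (n : ℕ) [n.AtLeastTwo] : Rat (OfNat.ofNat n : MvPowerSeries σ ℕ) := by
  have := rat_C (σ := σ) (OfNat.ofNat n)
  rwa [map_ofNat] at this

theorem rat_pow {f : MvPowerSeries σ ℕ} (h : Rat f) (n : ℕ) : Rat (f ^ n) := by
  induction n with
  | zero => rw [pow_zero]; exact rat_one
  | succ n ih => rw [pow_succ]; exact ih.mul h

theorem rat_SS : Rat SS := by
  have hU : constantCoeff (U ℕ) = 0 := by simp [U]
  have hW : constantCoeff (W ℕ) = 0 := by simp [W]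
  have hP : constantCoeff (PP ℕ) = 0 := by simp [PP]
  have rU : Rat (U ℕ) := (rat_pow (rat_X 0) 3).mul (rat_pow (rat_X 1) 3)
  have rW : Rat (W ℕ) := (rat_pow (rat_X 0) 2).mul (rat_pow (rat_X 1) 4)
  have rs : Rat (sl ℕ) := (rat_X 0).add (rat_X 1)
  have rP : Rat (PP ℕ) := by
    unfold PP
    repeat' first
      | with_reducible exact rat_X _
      | with_reducible exact rat_ofNat _
      | with_reducible apply Rat.add
      | with_reducible apply Rat.mul
      | with_reducible apply rat_pow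
  have rQ : Rat (QQ ℕ) := by
    unfold QQ
    repeat' first
      | with_reducible exact rs
      | with_reducible apply Rat.add
      | with_reducible apply rat_pow
  unfold SS
  repeat' first
    | with_reducible exact rU
    | with_reducible exact rW
    | with_reducible exact rP
    | with_reducible exact rQ
    | with_reducible exact rat_one
    | with_reducible exact rat_ofNat _
    | with_reducible apply Rat.add
    | with_reducible apply Rat.mul
    | with_reducible apply rat_pow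
    | with_reducible apply Rat.star
  all_goals simp [hU, hW, hP]

end

/-- There is a language over two letters whose characteristic series in commutative variables is
rational, while the characteristic series of its complement is not rational. -/
theorem result : ∃ L : Set (List (Fin 2)), Rat (chi L) ∧ ¬ Rat (chi Lᶜ) := by
  have hu : chi (Set.univ : Set (List (Fin 2))) = SS + Ph gT := by
    rw [chi_univ, main_eq]
    congr 1
  obtain ⟨L, hL⟩ := exists_language SS (by
    intro v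
    rw [hu, map_add]
    omega)
  refine ⟨L, by rw [hL]; exact rat_SS, ?_⟩
  intro h
  have h1 := chi_compl L
  rw [hL, hu] at h1
  have h2 : chi Lᶜ = Ph gT := by
    ext v
    have h3 := congrArg (coeff v) h1
    rw [map_add, map_add] at h3
    omega
  rw [h2] at h
  exact not_semilinear h.semilinear

end Pool.Agent.Results.MP_2e66a2_lc.ComplementNotRational
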